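import Pool.Agent.T6.H32.HC.Fac

set_option autoImplicit false

/-! The homomorphisms which kill the vanishing cycles. -/

namespace Pool.Agent.T6.H32.HC

open Pool.Agent.Y524H

/-- The conjugating words. -/
def S1 (rl : List (List (Fin 2 × Bool))) : List Word :=
  [Di 0, Di 1, [lA 1], [lB 1], [lA 0], [lA 2]] ++ rl.map Gw

theorem isL_single (l : Lick) (h : inL l = true) : isL [(l, true)] := by
  intro x hx
  rw [List.mem_singleton] at hx
  subst hx
  exact h

theorem isL_S1 (rl : List (List (Fin 2 × Bool))) : ∀ s ∈ S1 rl, isL s := by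
  intro s hs
  simp only [S1, List.mem_append, List.mem_cons, List.not_mem_nil, or_false, List.mem_map] at hs
  rcases hs with (rfl | rfl | rfl | rfl | rfl | rfl) | ⟨w, _, rfl⟩
  · exact isL_Di 0
  · exact isL_Di 1
  · exact isL_single _ (by decide)
  · exact isL_single _ (by decide)
  · exact isL_single _ (by decide)
  · exact isL_single _ (by decide)
  · exact isL_Gw w

section

variable {K : Type} [Group K]

theorem zeta_split : zeta 6 = zeta 3 * den fv zRw := by decide +kernel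

/-- The twist as a conjugate. -/
theorem tw_apply (Ψ : Pi1 →* K) (φ : MulAut Pi1) (k : Fin 4) (h : Ψ (φ (CC k)) = 1) (x : Pi1) :
    Ψ ((φ * TT k * φ⁻¹) x) = Ψ x := by
  have h1 := TT_triv (Ψ.comp φ.toMonoidHom) k h (φ⁻¹ x)
  change Ψ (φ (TT k (φ⁻¹ x))) = Ψ (φ (φ⁻¹ x)) at h1
  rw [MulAut.apply_inv_self] at h1
  exact h1

theorem fix_sg (Ψ : Pi1 →* K) (h : ∀ e ∈ r0e, Ψ (ev e.2 (CC e.1)) = 1) (x : Pi1) :
    Ψ (sg x) = Ψ x := by
  have hA : ∀ w : Word, ((0 : Fin 4), w) ∈ r0e → ∀ x, Ψ (ev (w ++ [lA 0] ++ invWd w) x) = Ψ x := by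
    intro w hw x
    have e1 : ev (w ++ [lA 0] ++ invWd w) = ev w * TT 0 * (ev w)⁻¹ := by
      rw [ev_append, ev_append, ev_invWd, ev_single]
      rfl
    rw [e1]
    exact tw_apply Ψ (ev w) 0 (h _ hw) x
  have hS0 : Ψ (CC 3) = 1 := h (3, []) (by simp [r0e])
  have hS : ∀ x, Ψ (sepTwist 3 x) = Ψ x := fun x => TT_triv Ψ 3 hS0 x
  have hc : Ψ (den vv zRw) = 1 := by
    have h1 : CC 3 * den vv zRw = 1 := by
      have e0 : CC 3 = PresentedGroup.mk {zeta 6} (zeta 3) := if_neg (by decide)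
      rw [e0, den_vv, ← map_mul, ← zeta_split]
      exact PresentedGroup.one_of_mem (by simp)
    have h2 := congrArg Ψ h1
    rwa [map_mul, hS0, one_mul, map_one] at h2
  have hP : Ψ (Pm x) = Ψ x := by
    simp only [Pm, MulAut.mul_apply]
    rw [hA f0w (by simp [r0e]), hA f1w (by simp [r0e]), hA f2w (by simp [r0e]),
      hA f3w (by simp [r0e]), hA f4w (by simp [r0e]), hA f5w (by simp [r0e]),
      hA f6w (by simp [r0e]), hS]
  rw [sg, MulAut.mul_apply, MulAut.conj_apply, map_mul, map_mul, map_inv, hc, hP]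
  simp

theorem isL_fix (s : Word) (hs : isL s) (j : ℕ) (hj : 6 ≤ j % 12) : ev s (vv j) = vv j := by
  have h0 : ∀ l : Lick, ∀ e : Bool, inL l = true → ∀ j : Fin 12, 6 ≤ j.val →
      (tabL (l, e)).getD j [] = [2 * j.val] := by decide +kernel
  induction s with
  | nil => rfl
  | cons l s ih =>
    have h2 : ev (l :: s) = (if l.2 then twist l.1 else (twist l.1)⁻¹) * ev s := by simp [ev]
    rw [h2, MulAut.mul_apply, ih fun x hx => hs x (List.mem_cons_of_mem _ hx)]
    have h3 := letter_isTab l j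
    have h4 := h0 l.1 l.2 (hs l List.mem_cons_self) ⟨j % 12, Nat.mod_lt _ (by norm_num)⟩ hj
    have h5 : (tabL l).getD (j % 12) [] = [2 * (j % 12)] := h4
    rw [h5] at h3
    rw [h3]
    simp [den, dl, vv_mod]

theorem sg_vv (j : ℕ) : sg (vv j) = vv (j + 6) := by
  have h := sg_isTab j
  have h0 : ∀ j : Fin 12, swapT.getD j [] = [2 * ((j.val + 6) % 12)] := by decide +kernel
  have h1 : swapT.getD (j % 12) [] = [2 * ((j % 12 + 6) % 12)] :=
    h0 ⟨j % 12, Nat.mod_lt _ (by norm_num)⟩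
  rw [h1] at h
  rw [h]
  have h2 : (j % 12 + 6) % 12 = (j + 6) % 12 := by omega
  simp [den, dl, h2, vv_mod]

theorem stab_word (Ψ : Pi1 →* K) (h0 : ∀ x, Ψ (sg x) = Ψ x) (s : Word) (hs : isL s)
    (h1 : ∀ x, Ψ (ev s (sg x)) = Ψ (ev s x)) (x : Pi1) : Ψ (ev s x) = Ψ x := by
  have h2 : Ψ.comp (ev s).toMonoidHom = Ψ := by
    apply MonoidHom.eq_of_eqOn_dense vv_gen
    rintro _ ⟨j, rfl⟩
    change Ψ (ev s (vv j)) = Ψ (vv j)
    by_cases hj : 6 ≤ j % 12
    · rw [isL_fix s hs j hj]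
    · have h3 : sg (vv (j + 6)) = vv j := by
        rw [sg_vv, ← vv_mod, ← vv_mod j]
        congr 1
        omega
      rw [← h3, h1, isL_fix s hs (j + 6) (by omega), h0]
  exact DFunLike.congr_fun h2 x

theorem mem_uu (S : List Word) (g s : Word) (hs : s = [] ∨ s ∈ Ss S ∨ s = g) {e : Entry}
    (he : e ∈ r0e) : cj s e ∈ uu S g := by
  have he' : e ∈ R0e := List.mem_append_left _ he
  rcases hs with rfl | hs | rfl
  · exact List.mem_append_left _ (List.mem_append_left _ he')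
  · refine List.mem_append_left _ (List.mem_append_right _ ?_)
    rw [List.mem_flatMap]
    exact ⟨s, hs, List.mem_map_of_mem he'⟩
  · exact List.mem_append_right _ (List.mem_map_of_mem he')

theorem of_mem_uu (S : List Word) (g : Word) {x : Entry} (hx : x ∈ uu S g) :
    ∃ s e, (s = [] ∨ s ∈ Ss S ∨ s = g) ∧ e ∈ r0e ∧ x = cj s e := by
  have hR : ∀ e ∈ R0e, e ∈ r0e := by
    intro e he
    rw [R0e, List.mem_append] at he
    exact he.elim id id
  rcases List.mem_append.1 hx with hx | hx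
  · rcases List.mem_append.1 hx with hx | hx
    · exact ⟨[], x, Or.inl rfl, hR x hx, rfl⟩
    · rw [List.mem_flatMap] at hx
      obtain ⟨s, hs, hx⟩ := hx
      rw [blk, List.mem_map] at hx
      obtain ⟨e, he, rfl⟩ := hx
      exact ⟨s, e, Or.inr (Or.inl hs), hR e he, rfl⟩
  · rw [blk, List.mem_map] at hx
    obtain ⟨e, he, rfl⟩ := hx
    exact ⟨g, e, Or.inr (Or.inr rfl), hR e he, rfl⟩

/-- A homomorphism which kills the vanishing cycles is preserved by the conjugating words. -/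
theorem Kills.stab {Ψ : Pi1 →* K} {S : List Word} {g : Word} (hL : ∀ s ∈ S, isL s) (hg : isL g)
    (h : Kills Ψ ((uu S g).map dehn)) :
    (∀ x, Ψ (sg x) = Ψ x) ∧ (∀ s, s ∈ S ∨ s = g → ∀ x, Ψ (ev s x) = Ψ x) := by
  have h1 : ∀ s : Word, (s = [] ∨ s ∈ Ss S ∨ s = g) → ∀ x, Ψ (ev s (sg x)) = Ψ (ev s x) := by
    intro s hs x
    refine fix_sg (Ψ.comp (ev s).toMonoidHom) ?_ x
    intro e he
    have hm := List.mem_map_of_mem (f := dehn) (mem_uu S g s hs he)
    rw [dehn_eq] at hm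
    have h2 := h _ _ hm
    change Ψ (ev (s ++ e.2) (CC e.1)) = 1 at h2
    rw [ev_append, MulAut.mul_apply] at h2
    exact h2
  have h0 : ∀ x, Ψ (sg x) = Ψ x := by
    intro x
    have h2 := h1 [] (Or.inl rfl) x
    have e : ev ([] : Word) = 1 := rfl
    rwa [e, MulAut.one_apply, MulAut.one_apply] at h2
  refine ⟨h0, ?_⟩
  intro s hs x
  refine stab_word Ψ h0 s ?_ (h1 s ?_) x
  · rcases hs with hs | rfl
    · exact hL s hs
    · exact hg
  · rcases hs with hs | rfl
    · exact Or.inr (Or.inl (List.mem_append_left _ hs))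
    · exact Or.inr (Or.inr rfl)

/-- A homomorphism which kills the vanishing cycles has the form `Φ_1`. -/
theorem Kills.eq_Phi {Ψ : Pi1 →* K} {rl : List (List (Fin 2 × Bool))} {g : Word} (hg : isL g)
    (h : Kills Ψ ((uu (S1 rl) g).map dehn)) : Ψ = Phi ![Ψ (vv 1), Ψ (vv 5)] 1 := by
  obtain ⟨h0, h1⟩ := h.stab (isL_S1 rl) hg
  have hsw : ∀ j, Ψ (vv (j + 6)) = Ψ (vv j) := by
    intro j
    rw [← sg_vv, h0]
  have v2 : Ψ (vv 2) = 1 := by
    have h2 := h1 [lA 1] (Or.inl (by simp [S1])) (vv 3)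
    have h3 := ev_isTab [lA 1] 3
    have e : (tabW [lA 1]).getD (3 % 12) [] = [6, 4] := by decide +kernel
    rw [e] at h3
    rw [h3] at h2
    simpa [den, dl] using h2
  have v3 : Ψ (vv 3) = 1 := by
    have h2 := h1 [lB 1] (Or.inl (by simp [S1])) (vv 2)
    have h3 := ev_isTab [lB 1] 2
    have e : (tabW [lB 1]).getD (2 % 12) [] = [4, 7] := by decide +kernel
    rw [e] at h3
    rw [h3] at h2
    simpa [den, dl] using h2
  have v0 : Ψ (vv 0) = 1 := by
    have h2 := h1 [lA 0] (Or.inl (by simp [S1])) (vv 1)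
    have h3 := ev_isTab [lA 0] 1
    have e : (tabW [lA 0]).getD (1 % 12) [] = [2, 0] := by decide +kernel
    rw [e] at h3
    rw [h3] at h2
    simpa [den, dl] using h2
  have v4 : Ψ (vv 4) = 1 := by
    have h2 := h1 [lA 2] (Or.inl (by simp [S1])) (vv 5)
    have h3 := ev_isTab [lA 2] 5
    have e : (tabW [lA 2]).getD (5 % 12) [] = [10, 8] := by decide +kernel
    rw [e] at h3
    rw [h3] at h2
    simpa [den, dl] using h2
  refine HasT.ext (y := yy ![Ψ (vv 1), Ψ (vv 5)] 1) (P := PT []) ?_ (Phi_one _)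
  intro j
  rw [PT_getD _ _ _ (Nat.mod_lt _ (by norm_num)), ← vv_mod]
  have hj : j % 12 < 12 := Nat.mod_lt _ (by norm_num)
  generalize j % 12 = i at hj
  have h6 := hsw 0
  have h7 := hsw 1
  have h8 := hsw 2
  have h9 := hsw 3
  have h10 := hsw 4
  have h11 := hsw 5
  interval_cases i <;> simp_all [yy, den]

theorem not_Pr (rl : List (List (Fin 2 × Bool))) (y : List (Fin 2 × Bool))
    (hy : ∀ p : Fin 2 → K, FreeGroup.lift p (FreeGroup.mk y) = 1 → p 0 = 1) :
    ¬ Pr K ((uu (S1 rl) (Gw y)).map dehn) := by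
  rintro ⟨_, Ψ, hK, u, v, huv⟩
  have hΨ := hK.eq_Phi (isL_Gw y)
  obtain ⟨_, h1⟩ := hK.stab (isL_S1 rl) (isL_Gw y)
  set p : Fin 2 → K := ![Ψ (vv 1), Ψ (vv 5)] with hp
  have h2 : FreeGroup.lift p (FreeGroup.mk y) = 1 := by
    have h3 := h1 (Gw y) (Or.inr rfl) (vv 2)
    rw [hΨ, ev_Gw] at h3
    have h4 := DFunLike.congr_fun (Phi_Gh p (FreeGroup.mk y) 1) (vv 2)
    have h5 : Phi p 1 (Gh (FreeGroup.mk y) (vv 2)) =
      Phi p (1 * FreeGroup.lift p (FreeGroup.mk y)) (vv 2) := h4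
    rw [h5, Phi_vv, Phi_vv] at h3
    simpa [PT, den, dl, yy] using h3
  have h3 : p 0 = 1 := hy p h2
  have h4 : ∀ x, Ψ x ∈ Subgroup.zpowers (p 1) := by
    intro x
    have h5 : Subgroup.closure (Set.range vv) ≤ (Subgroup.zpowers (p 1)).comap Ψ := by
      rw [Subgroup.closure_le]
      rintro _ ⟨j, rfl⟩
      rw [SetLike.mem_coe, Subgroup.mem_comap, hΨ, Phi_one p j,
        PT_getD _ _ _ (Nat.mod_lt _ (by norm_num))]
      have e0 : yy p 1 0 = 1 := h3
      have e1 : yy p 1 1 = p 1 := rfl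
      rw [e0, e1]
      split_ifs
      · exact one_mem _
      · exact Subgroup.mem_zpowers _
      · exact one_mem _
      · exact one_mem _
    rw [vv_gen] at h5
    exact h5 (Subgroup.mem_top x)
  obtain ⟨i, hi⟩ := h4 u
  obtain ⟨j, hj⟩ := h4 v
  apply huv
  rw [← hi, ← hj]
  change p 1 ^ i * p 1 ^ j = p 1 ^ j * p 1 ^ i
  rw [← zpow_add, ← zpow_add, add_comm]

end

end Pool.Agent.T6.H32.HC
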