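import Pool.Agent.Y524H.Conv
import Pool.Agent.R629.FreeCent

set_option autoImplicit false

/-! The normal closure of the vanishing cycles as an invariant of factorizations up to Hurwitz moves
and global conjugation. -/

namespace Pool.Agent.T6.H32.HC

open Pool.Agent.Y524H

/-- The Dehn twist of type `k`. -/
def TT (k : Fin 4) : MulAut Pi1 := if k = 0 then twist (.inl 0) else sepTwist k

/-- The curve of type `k`. -/
def CC (k : Fin 4) : Pi1 :=
  if k = 0 then PresentedGroup.of (0, false) else PresentedGroup.mk {zeta 6} (zeta k)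

theorem dehn_eq (x : Entry) : dehn x = qq (ev x.2 * TT x.1 * (ev x.2)⁻¹) := rfl

theorem TT_zero (x : Gen) : TT 0 (PresentedGroup.of x) =
    if x = (0, true) then PresentedGroup.of (0, true) * PresentedGroup.of (0, false)
      else PresentedGroup.of x := by
  have h : TT 0 = twist (.inl 0) := rfl
  rw [h, twist, mkAut_apply]
  simp only [twistImage, if_true]
  by_cases hx : x = (0, true)
  · rw [if_pos hx, if_pos hx]
    rfl
  · rw [if_neg hx, if_neg hx]
    rfl

theorem TT_ne {k : Fin 4} (hk : k ≠ 0) (x : Gen) : TT k (PresentedGroup.of x) =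
    if x.1.val < k.val then (CC k)⁻¹ * PresentedGroup.of x * CC k else PresentedGroup.of x := by
  have h : TT k = sepTwist k := if_neg hk
  have h2 : CC k = PresentedGroup.mk {zeta 6} (zeta k) := if_neg hk
  rw [h, sepTwist, mkAut_apply, h2]
  simp only [sepImage, if_true]
  by_cases hx : x.1.val < k.val
  · rw [if_pos hx, if_pos hx, map_mul, map_mul, map_inv]
    rfl
  · rw [if_neg hx, if_neg hx]
    rfl

section

variable {K : Type} [Group K]

/-- A homomorphism which kills the curve is preserved by the twist. -/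
theorem TT_triv (Ψ : Pi1 →* K) (k : Fin 4) (h : Ψ (CC k) = 1) (x : Pi1) : Ψ (TT k x) = Ψ x := by
  have h1 : Ψ.comp (TT k).toMonoidHom = Ψ := by
    apply PresentedGroup.ext
    intro y
    change Ψ (TT k (PresentedGroup.of y)) = Ψ (PresentedGroup.of y)
    by_cases hk : k = 0
    · subst hk
      rw [TT_zero]
      have h2 : Ψ (PresentedGroup.of (0, false)) = 1 := h
      split_ifs with hy
      · rw [map_mul, h2, mul_one, hy]
      · rfl
    · rw [TT_ne hk]
      split_ifs with hy
      · rw [map_mul, map_mul, map_inv, h, inv_one, one_mul, mul_one]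
      · rfl
  exact DFunLike.congr_fun h1 x

/-- `Ψ` kills the vanishing cycles of all twists in the list `u`, for all ways to write the twist
as a twist about the image of a standard curve under an automorphism. -/
def Kills (Ψ : Pi1 →* K) (u : List OutPi) : Prop :=
  ∀ (φ : MulAut Pi1) (k : Fin 4), qq (φ * TT k * φ⁻¹) ∈ u → Ψ (φ (CC k)) = 1

/-- All members of the list are Dehn twists. -/
def Twists (u : List OutPi) : Prop := ∀ t ∈ u, ∃ (φ : MulAut Pi1) (k : Fin 4),
  t = qq (φ * TT k * φ⁻¹)

theorem Kills.fix {Ψ : Pi1 →* K} {u : List OutPi} (h : Kills Ψ u) {φ : MulAut Pi1} {k : Fin 4}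
    (hu : qq (φ * TT k * φ⁻¹) ∈ u) (x : Pi1) : Ψ ((φ * TT k * φ⁻¹) x) = Ψ x := by
  have h1 := TT_triv (Ψ.comp φ.toMonoidHom) k (h φ k hu) (φ⁻¹ x)
  change Ψ (φ (TT k (φ⁻¹ x))) = Ψ (φ (φ⁻¹ x)) at h1
  rw [MulAut.apply_inv_self] at h1
  exact h1

theorem kills_move {Ψ : Pi1 →* K} {l r : List OutPi} {s t : OutPi}
    (hs : ∃ (φ : MulAut Pi1) (k : Fin 4), s = qq (φ * TT k * φ⁻¹)) :
    Kills Ψ (l ++ s :: t :: r) ↔ Kills Ψ (l ++ (s * t * s⁻¹) :: s :: r) := by
  obtain ⟨φs, ks, rfl⟩ := hs
  set σ := φs * TT ks * φs⁻¹ with hσ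
  constructor
  · intro h φ k hk
    have hfix : ∀ x, Ψ (σ x) = Ψ x := fun x => h.fix (φ := φs) (k := ks)
      (List.mem_append.2 (Or.inr (by simp only [List.mem_cons]; tauto))) x
    simp only [List.mem_append, List.mem_cons] at hk
    rcases hk with hk | hk | hk | hk
    · exact h φ k (by simp only [List.mem_append, List.mem_cons]; tauto)
    · have h1 : qq ((σ⁻¹ * φ) * TT k * (σ⁻¹ * φ)⁻¹) = t := by
        have : (σ⁻¹ * φ) * TT k * (σ⁻¹ * φ)⁻¹ = σ⁻¹ * (φ * TT k * φ⁻¹) * σ := by group
        rw [this, map_mul, map_mul, hk, map_inv]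
        group
      have h2 := h (σ⁻¹ * φ) k (by rw [h1]; simp only [List.mem_append, List.mem_cons]; tauto)
      rw [MulAut.mul_apply, ← hfix, MulAut.apply_inv_self] at h2
      exact h2
    · exact h φ k (by simp only [List.mem_append, List.mem_cons]; tauto)
    · exact h φ k (by simp only [List.mem_append, List.mem_cons]; tauto)
  · intro h φ k hk
    have hfix : ∀ x, Ψ (σ x) = Ψ x := fun x => h.fix (φ := φs) (k := ks)
      (List.mem_append.2 (Or.inr (by simp only [List.mem_cons]; tauto))) x
    simp only [List.mem_append, List.mem_cons] at hk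
    rcases hk with hk | hk | hk | hk
    · exact h φ k (by simp only [List.mem_append, List.mem_cons]; tauto)
    · exact h φ k (by simp only [List.mem_append, List.mem_cons]; tauto)
    · have h1 : qq ((σ * φ) * TT k * (σ * φ)⁻¹) = qq σ * t * (qq σ)⁻¹ := by
        have : (σ * φ) * TT k * (σ * φ)⁻¹ = σ * (φ * TT k * φ⁻¹) * σ⁻¹ := by group
        rw [this, map_mul, map_mul, hk, map_inv]
      have h2 := h (σ * φ) k (by rw [h1]; simp only [List.mem_append, List.mem_cons]; tauto)
      rw [MulAut.mul_apply, hfix] at h2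
      exact h2
    · exact h φ k (by simp only [List.mem_append, List.mem_cons]; tauto)

theorem twists_move {l r : List OutPi} {s t : OutPi} :
    Twists (l ++ s :: t :: r) ↔ Twists (l ++ (s * t * s⁻¹) :: s :: r) := by
  have key : ∀ s t : OutPi, (∃ (φ : MulAut Pi1) (k : Fin 4), t = qq (φ * TT k * φ⁻¹)) →
      ∃ (φ : MulAut Pi1) (k : Fin 4), s * t * s⁻¹ = qq (φ * TT k * φ⁻¹) := by
    rintro s t ⟨φ, k, rfl⟩
    obtain ⟨σ, rfl⟩ := QuotientGroup.mk'_surjective Inn s
    refine ⟨σ * φ, k, ?_⟩
    change qq σ * qq (φ * TT k * φ⁻¹) * (qq σ)⁻¹ = _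
    have e : (σ * φ) * TT k * (σ * φ)⁻¹ = σ * (φ * TT k * φ⁻¹) * σ⁻¹ := by group
    rw [e, map_mul qq (σ * _), map_mul qq σ, map_inv qq σ]
  constructor
  · intro h x hx
    simp only [List.mem_append, List.mem_cons] at hx
    rcases hx with hx | rfl | hx | hx
    · exact h x (by simp [hx])
    · exact key s t (h t (by simp))
    · exact h x (by simp [hx])
    · exact h x (by simp [hx])
  · intro h x hx
    simp only [List.mem_append, List.mem_cons] at hx
    rcases hx with hx | hx | rfl | hx
    · exact h x (by simp [hx])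
    · exact h x (by simp [hx])
    · have := key s⁻¹ (s * x * s⁻¹) (h _ (by simp))
      have e : s⁻¹ * (s * x * s⁻¹) * s⁻¹⁻¹ = x := by group
      rwa [e] at this
    · exact h x (by simp [hx])

theorem kills_conj {Ψ : Pi1 →* K} {u : List OutPi} (h : Kills Ψ u) (γ : MulAut Pi1) :
    Kills (Ψ.comp (γ⁻¹ : MulAut Pi1).toMonoidHom) (u.map (MulAut.conj (qq γ))) := by
  intro φ k hk
  rw [List.mem_map] at hk
  obtain ⟨t, ht, hk⟩ := hk
  have h1 : qq ((γ⁻¹ * φ) * TT k * (γ⁻¹ * φ)⁻¹) = t := by
    have : (γ⁻¹ * φ) * TT k * (γ⁻¹ * φ)⁻¹ = γ⁻¹ * (φ * TT k * φ⁻¹) * γ := by group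
    rw [this, map_mul, map_mul, ← hk, MulAut.conj_apply, map_inv]
    group
  exact h (γ⁻¹ * φ) k (h1 ▸ ht)

theorem twists_conj {u : List OutPi} (h : Twists u) (γ : MulAut Pi1) :
    Twists (u.map (MulAut.conj (qq γ))) := by
  intro t ht
  rw [List.mem_map] at ht
  obtain ⟨s, hs, rfl⟩ := ht
  obtain ⟨φ, k, rfl⟩ := h s hs
  refine ⟨γ * φ, k, ?_⟩
  have e : (γ * φ) * TT k * (γ * φ)⁻¹ = γ * (φ * TT k * φ⁻¹) * γ⁻¹ := by group
  rw [e, map_mul qq (γ * _), map_mul qq γ, map_inv qq γ]
  rfl

end

/-- One Hurwitz move or one global conjugation by an element of `Γ`. -/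
inductive Move {M : Type} [Group M] (Γ : Subgroup M) : List M → List M → Prop
  | hurwitz (u v : List M) (h : HurwitzMove u v) : Move Γ u v
  | conj (u : List M) (g : M) (hg : g ∈ Γ) : Move Γ u (u.map fun t => g * t * g⁻¹)

/-- Equivalence up to Hurwitz moves and global conjugation by elements of `Γ`. -/
def ConjEquiv {M : Type} [Group M] (Γ : Subgroup M) (u v : List M) : Prop :=
  Relation.EqvGen (Move Γ) u v

theorem ConjEquiv.of_hurwitz {M : Type} [Group M] {Γ : Subgroup M} {u v : List M}
    (h : HurwitzEquiv u v) : ConjEquiv Γ u v := by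
  induction h with
  | rel _ _ h => exact Relation.EqvGen.rel _ _ (Move.hurwitz _ _ h)
  | refl _ => exact Relation.EqvGen.refl _
  | symm _ _ _ h => exact Relation.EqvGen.symm _ _ h
  | trans _ _ _ _ _ h1 h2 => exact Relation.EqvGen.trans _ _ _ h1 h2

/-- The invariant: there is a homomorphism to `K` with noncommutative image which kills the
vanishing cycles. -/
def Pr (K : Type) [Group K] (u : List OutPi) : Prop :=
  Twists u ∧ ∃ Ψ : Pi1 →* K, Kills Ψ u ∧ ∃ x y, Ψ x * Ψ y ≠ Ψ y * Ψ x

theorem Pr_conj {K : Type} [Group K] {u : List OutPi} (h : Pr K u) (g : OutPi) :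
    Pr K (u.map fun t => g * t * g⁻¹) := by
  obtain ⟨γ, rfl⟩ := QuotientGroup.mk'_surjective Inn g
  obtain ⟨h1, Ψ, h2, x, y, h3⟩ := h
  have e : (u.map fun t => QuotientGroup.mk' Inn γ * t * (QuotientGroup.mk' Inn γ)⁻¹) =
      u.map (MulAut.conj (qq γ)) := rfl
  rw [e]
  refine ⟨twists_conj h1 γ, _, kills_conj h2 γ, γ x, γ y, ?_⟩
  simp only [MonoidHom.comp_apply]
  change Ψ (γ⁻¹ (γ x)) * Ψ (γ⁻¹ (γ y)) ≠ Ψ (γ⁻¹ (γ y)) * Ψ (γ⁻¹ (γ x))
  rw [MulAut.inv_apply_self, MulAut.inv_apply_self]
  exact h3

theorem Pr_move {K : Type} [Group K] {Γ : Subgroup OutPi} {u v : List OutPi} (h : Move Γ u v) :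
    Pr K u ↔ Pr K v := by
  cases h with
  | hurwitz _ h =>
    obtain ⟨l, r, s, t⟩ := h
    constructor
    · rintro ⟨h1, Ψ, h2, h3⟩
      exact ⟨twists_move.1 h1, Ψ, (kills_move (h1 s (by simp))).1 h2, h3⟩
    · rintro ⟨h1, Ψ, h2, h3⟩
      exact ⟨twists_move.2 h1, Ψ, (kills_move (h1 s (by simp))).2 h2, h3⟩
  | conj g hg =>
    constructor
    · intro h
      exact Pr_conj h g
    · intro h
      have h1 := Pr_conj h g⁻¹
      rw [List.map_map] at h1
      have e : ((fun t => g⁻¹ * t * g⁻¹⁻¹) ∘ fun t => g * t * g⁻¹) = id := by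
        funext t
        simp [mul_assoc]
      rwa [e, List.map_id] at h1

theorem Pr_equiv {K : Type} [Group K] {Γ : Subgroup OutPi} {u v : List OutPi}
    (h : ConjEquiv Γ u v) : Pr K u ↔ Pr K v := by
  induction h with
  | rel _ _ h => exact Pr_move h
  | refl _ => exact Iff.rfl
  | symm _ _ _ h => exact h.symm
  | trans _ _ _ _ _ h1 h2 => exact h1.trans h2

/-! ### Homomorphisms to a free group -/

open Pool.Agent.R629.FreeCent

theorem comms_one {K : Type} [Group K] (Ψ : FreeGroup Gen →* K) (L : List (Fin 6))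
    (h : ∀ i ∈ L, Ψ (a i) * Ψ (b i) = Ψ (b i) * Ψ (a i)) :
    Ψ ((L.map fun i => a i * b i * (a i)⁻¹ * (b i)⁻¹).prod) = 1 := by
  induction L with
  | nil => simp
  | cons i L ih =>
    rw [List.map_cons, List.prod_cons, map_mul, ih fun j hj => h j (List.mem_cons_of_mem _ hj),
      mul_one]
    simp only [map_mul, map_inv, h i List.mem_cons_self]
    group

/-- A homomorphism onto the free group of rank two which is preserved by a Dehn twist up to
conjugation kills the vanishing cycle. -/
theorem star (Ψ : Pi1 →* FreeGroup (Fin 2)) (hsurj : Function.Surjective Ψ) (k : Fin 4)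
    (h : FreeGroup (Fin 2)) (hΨ : ∀ x, Ψ (TT k x) = h * Ψ x * h⁻¹) : Ψ (CC k) = 1 := by
  have comm_of : ∀ x : Gen, TT k (PresentedGroup.of x) = PresentedGroup.of x →
      Ψ (PresentedGroup.of x) * h = h * Ψ (PresentedGroup.of x) := by
    intro x hx
    have := hΨ (PresentedGroup.of x)
    rw [hx] at this
    exact eq_mul_inv_iff_mul_eq.1 this
  by_cases hk : k = 0
  · subst hk
    have e0 : CC 0 = PresentedGroup.of (0, false) := rfl
    rw [e0]
    have hb := hΨ (PresentedGroup.of (0, true))
    rw [TT_zero, if_pos rfl, map_mul] at hb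
    by_cases h1 : h = 1
    · subst h1
      simpa using hb
    · exfalso
      have ha := comm_of (0, false) (by rw [TT_zero, if_neg (by simp)])
      set β := Ψ (PresentedGroup.of (0, true)) with hβ
      set α := Ψ (PresentedGroup.of (0, false)) with hα
      have e1 : β⁻¹ * h * β = α * h := by
        have : h * β = β * α * h := by rw [hb]; group
        rw [mul_assoc, this]
        group
      have h2 : β * h = h * β := by
        apply malnormal h1 h1 rfl
        rw [e1, ha, mul_assoc, ha]
      have hall : ∀ x : Gen, Ψ (PresentedGroup.of x) * h = h * Ψ (PresentedGroup.of x) := by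
        intro x
        by_cases hx : x = (0, true)
        · rw [hx]; exact h2
        · exact comm_of x (by rw [TT_zero, if_neg hx])
      have hcen : ∀ g, h * g = g * h := by
        intro g
        obtain ⟨y, rfl⟩ := hsurj g
        have h3 : (MulAut.conj h).toMonoidHom.comp Ψ = Ψ := by
          apply PresentedGroup.ext
          intro x
          change h * Ψ (PresentedGroup.of x) * h⁻¹ = Ψ (PresentedGroup.of x)
          rw [← hall x, mul_inv_cancel_right]
        have h4 := DFunLike.congr_fun h3 y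
        change h * Ψ y * h⁻¹ = Ψ y at h4
        exact mul_inv_eq_iff_eq_mul.1 h4
      have := subsingleton_of_central h h1 hcen
      exact absurd (Subsingleton.elim (0 : Fin 2) 1) (by decide)
  · have e0 : CC k = PresentedGroup.mk {zeta 6} (zeta k) := if_neg hk
    by_cases h1 : h = 1
    · by_contra hz
      have hcomm : ∀ x : Gen, x.1.val < k.val →
          Ψ (PresentedGroup.of x) * Ψ (CC k) = Ψ (CC k) * Ψ (PresentedGroup.of x) := by
        intro x hx
        have := hΨ (PresentedGroup.of x)
        rw [TT_ne hk, if_pos hx, h1, one_mul, inv_one, mul_one, map_mul, map_mul, map_inv] at this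
        rw [mul_assoc, inv_mul_eq_iff_eq_mul] at this
        exact this
      apply hz
      rw [e0]
      refine comms_one (Ψ.comp (PresentedGroup.mk {zeta 6})) _ ?_
      intro i hi
      have hik : i.val < k.val := by
        have : ∀ k : Fin 4, ∀ i ∈ (List.finRange 6).take k.val, i.val < k.val := by decide
        exact this k i hi
      exact comm_trans hz (hcomm (i, false) hik) (hcomm (i, true) hik).symm
    · have hcomm : ∀ x : Gen, ¬ x.1.val < k.val →
          Ψ (PresentedGroup.of x) * h = h * Ψ (PresentedGroup.of x) := fun x hx =>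
        comm_of x (by rw [TT_ne hk, if_neg hx])
      have h2 := comms_one (Ψ.comp (PresentedGroup.mk {zeta 6})) ((List.finRange 6).drop k.val) (by
        intro i hi
        have hik : ¬ i.val < k.val := by
          have : ∀ k : Fin 4, ∀ i ∈ (List.finRange 6).drop k.val, ¬ i.val < k.val := by decide
          exact this k i hi
        exact comm_trans h1 (hcomm (i, false) hik) (hcomm (i, true) hik).symm)
      have h3 : zeta 6 = zeta k * (((List.finRange 6).drop k.val).map
          fun i => a i * b i * (a i)⁻¹ * (b i)⁻¹).prod := by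
        rw [zeta, zeta, ← List.prod_append, ← List.map_append, List.take_append_drop]
        rfl
      have h4 : PresentedGroup.mk {zeta 6} (zeta 6) = 1 := PresentedGroup.one_of_mem (by simp)
      have h5 : Ψ (PresentedGroup.mk {zeta 6} (zeta k)) * Ψ (PresentedGroup.mk {zeta 6}
          (((List.finRange 6).drop k.val).map
            fun i => a i * b i * (a i)⁻¹ * (b i)⁻¹).prod) = 1 := by
        rw [← map_mul, ← map_mul, ← h3, h4, map_one]
      have h6 : Ψ (PresentedGroup.mk {zeta 6} ((((List.finRange 6).drop k.val).map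
          fun i => a i * b i * (a i)⁻¹ * (b i)⁻¹).prod)) = 1 := h2
      rw [h6, mul_one] at h5
      rw [e0]
      exact h5

end Pool.Agent.T6.H32.HC
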