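import Pool.Agent.T6.H32.HC.Grp
import Pool.Agent.T6.H32.HC.Inv

set_option autoImplicit false

/-! The construction. -/

namespace Pool.Agent.T6.H32.HC

open Pool.Agent.Y524H

/-- The conjugate of the relation. -/
def blk (s : Word) : List Entry := R0e.map (cj s)

/-- The conjugating words: a set and its products of two elements. -/
def Ss (S : List Word) : List Word := S ++ S.flatMap fun s => S.map fun t => s ++ t

/-- The first part of the factorization. -/
def tauS (S : List Word) : List Entry := R0e ++ (Ss S).flatMap blk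

/-- The factorization. -/
def uu (S : List Word) (g : Word) : List Entry := tauS S ++ blk g

theorem blk_prod (s : Word) : ((blk s).map dehn).prod = 1 := by
  rw [blk, map_dehn_cj, List.prod_hom, R0e_prod, map_one]

theorem tauS_prod (S : List Word) : ((tauS S).map dehn).prod = 1 := by
  have h : ∀ l : List Word, ((l.flatMap blk).map dehn).prod = 1 := by
    intro l
    induction l with
    | nil => rfl
    | cons s l ih =>
      rw [List.flatMap_cons, List.map_append, List.prod_append, ih, mul_one, blk_prod]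
  rw [tauS, List.map_append, List.prod_append, h, R0e_prod, one_mul]

theorem uu_isFactorization (S : List Word) (g : Word) : IsFactorization (uu S g) := by
  rw [IsFactorization, uu, List.map_append, List.prod_append, tauS_prod, blk_prod, one_mul]

/-- The subgroup generated by the twists of the first part. -/
def HS (S : List Word) : Subgroup OutPi := Subgroup.closure {x | x ∈ (tauS S).map dehn}

theorem theta_mem' (S : List Word) : qq sg ∈ HS S := by
  rw [← r0e_prod]
  apply Subgroup.list_prod_mem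
  intro x hx
  apply Subgroup.subset_closure
  simp only [Set.mem_ofPred_eq, tauS, R0e, List.map_append, List.mem_append]
  exact Or.inl (Or.inl hx)

theorem theta_conj_mem' (S : List Word) (s : Word) (hs : s ∈ Ss S) :
    qq (ev s) * qq sg * (qq (ev s))⁻¹ ∈ HS S := by
  rw [← MulAut.conj_apply, ← r0e_prod, ← List.prod_hom, ← map_dehn_cj]
  apply Subgroup.list_prod_mem
  intro x hx
  apply Subgroup.subset_closure
  simp only [Set.mem_ofPred_eq, tauS, List.map_append, List.mem_append]
  right
  rw [List.mem_map] at hx ⊢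
  obtain ⟨e, he, rfl⟩ := hx
  refine ⟨e, ?_, rfl⟩
  rw [List.mem_flatMap]
  refine ⟨s, hs, ?_⟩
  rw [blk]
  rw [List.mem_map] at he ⊢
  obtain ⟨e', he', rfl⟩ := he
  refine ⟨e', ?_, rfl⟩
  rw [R0e]
  exact List.mem_append_left _ he'

/-- The elements used in the commutator trick. -/
def SX (S : List Word) : Set OutPi := {x | ∃ s ∈ S, x = qq (ev s)}

theorem comm_HS (S : List Word) (hL : ∀ s ∈ S, isL s) :
    ∀ x ∈ Subgroup.closure (SX S), ∀ y ∈ Subgroup.closure (SX S),
      x * y * x⁻¹ * y⁻¹ ∈ HS S := by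
  apply comm_mem LL RR (HS S) (qq sg) LR_comm theta_LR (theta_mem' S) (SX S)
  · rintro _ ⟨s, hs, rfl⟩
    exact isL_mem (hL s hs)
  · rintro _ ⟨s, hs, rfl⟩
    exact theta_conj_mem' S s (List.mem_append_left _ hs)
  · rintro _ ⟨s, hs, rfl⟩ _ ⟨t, ht, rfl⟩
    rw [← map_mul, ← ev_append]
    apply theta_conj_mem' S (s ++ t)
    apply List.mem_append_right
    rw [List.mem_flatMap]
    exact ⟨s, hs, List.mem_map.2 ⟨t, ht, rfl⟩⟩

theorem G_mem' (S : List Word) (rl : List (List (Fin 2 × Bool))) (hD : ∀ i : Fin 2, Di i ∈ S)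
    (hr : ∀ r ∈ rl, Gw r ∈ S) (z : FreeGroup (Fin 2))
    (hz : z ∈ Subgroup.normalClosure (Rel rl)) : qq (Gh z) ∈ Subgroup.closure (SX S) := by
  let N : Subgroup (FreeGroup (Fin 2)) := (Subgroup.closure (SX S)).comap (qq.comp Gh)
  have hD : ∀ i : Fin 2, qq (ev (Di i)) ∈ Subgroup.closure (SX S) := by
    intro i
    apply Subgroup.subset_closure
    exact ⟨Di i, hD i, rfl⟩
  have hN : N.Normal := by
    have h1 : ∀ i : Fin 2, ∀ n ∈ N, FreeGroup.of i * n * (FreeGroup.of i)⁻¹ ∈ N := by
      intro i n hn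
      change qq (Gh (FreeGroup.of i * n * (FreeGroup.of i)⁻¹)) ∈ Subgroup.closure (SX S)
      rw [← DG_all, map_mul, map_mul, map_inv]
      exact Subgroup.mul_mem _ (Subgroup.mul_mem _ (hD i) hn) (Subgroup.inv_mem _ (hD i))
    have h2 : ∀ i : Fin 2, ∀ n ∈ N, (FreeGroup.of i)⁻¹ * n * FreeGroup.of i ∈ N := by
      intro i n hn
      change qq (Gh ((FreeGroup.of i)⁻¹ * n * FreeGroup.of i)) ∈ Subgroup.closure (SX S)
      have h3 := DG_all i ((FreeGroup.of i)⁻¹ * n * FreeGroup.of i)
      have h4 : FreeGroup.of i * ((FreeGroup.of i)⁻¹ * n * FreeGroup.of i) * (FreeGroup.of i)⁻¹ = n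
        := by group
      rw [h4] at h3
      have h5 : Gh ((FreeGroup.of i)⁻¹ * n * FreeGroup.of i) =
          (ev (Di i))⁻¹ * Gh n * ev (Di i) := by
        rw [← h3]; group
      rw [h5, map_mul, map_mul, map_inv]
      exact Subgroup.mul_mem _ (Subgroup.mul_mem _ (Subgroup.inv_mem _ (hD i)) hn) (hD i)
    refine ⟨?_⟩
    intro n hn g
    induction g using FreeGroup.induction_on generalizing n with
    | C1 => simpa using hn
    | of i => exact h1 i n hn
    | inv_of i _ =>
      rw [inv_inv]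
      exact h2 i n hn
    | mul u v hu hv =>
      have := hu _ (hv n hn)
      have e : u * (v * n * v⁻¹) * u⁻¹ = u * v * n * (u * v)⁻¹ := by group
      rw [e] at this
      exact this
  have hle : Subgroup.normalClosure (Rel rl) ≤ N := by
    apply Subgroup.normalClosure_le_normal
    rintro _ ⟨r, hr', rfl⟩
    change qq (Gh (FreeGroup.mk r)) ∈ Subgroup.closure (SX S)
    rw [← ev_Gw]
    apply Subgroup.subset_closure
    exact ⟨Gw r, hr r hr', rfl⟩
  exact hle hz

/-- Conjugation of one block by an element of the group generated by the other entries. -/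
theorem block_conj {M : Type} [Group M] {τ B : List M} (hτ : τ.prod = 1) (hB : B.prod = 1) {g : M}
    (hg : g ∈ Subgroup.closure {x | x ∈ τ}) : HurwitzEquiv (τ ++ B) (τ ++ B.map (MulAut.conj g)) := by
  have h1 : HurwitzEquiv (τ ++ B) ((τ ++ B).map (MulAut.conj g)) := by
    apply conj_closure
    · rw [List.prod_append, hτ, hB, one_mul]
    · refine Subgroup.closure_mono ?_ hg
      intro x hx
      exact List.mem_append_left _ hx
  have h2 := (conj_closure hτ hg).append [] (B.map (MulAut.conj g))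
  rw [List.map_append] at h1
  simp only [List.nil_append] at h2
  exact h1.trans h2.symm

/-- The word of the commutator. -/
def vw (z y : List (Fin 2 × Bool)) : List (Fin 2 × Bool) :=
  z ++ [(0, true)] ++ iw z ++ [(0, false)] ++ y

theorem mk_vw (z y : List (Fin 2 × Bool)) : FreeGroup.mk (vw z y) =
    FreeGroup.mk z * FreeGroup.of 0 * (FreeGroup.mk z)⁻¹ * (FreeGroup.of 0)⁻¹ *
      FreeGroup.mk y := by
  have e1 : FreeGroup.mk [((0 : Fin 2), true)] = FreeGroup.of 0 := rfl
  have e2 : FreeGroup.mk [((0 : Fin 2), false)] = (FreeGroup.of 0)⁻¹ := rfl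
  simp only [vw, ← FreeGroup.mul_mk, mk_iw, e1, e2]

theorem equiv_A (S : List Word) (rl : List (List (Fin 2 × Bool))) (hL : ∀ s ∈ S, isL s)
    (hD : ∀ i : Fin 2, Di i ∈ S) (hr : ∀ r ∈ rl, Gw r ∈ S) (z y : List (Fin 2 × Bool))
    (hz : FreeGroup.mk z ∈ Subgroup.normalClosure (Rel rl)) :
    HurwitzEquiv ((uu S (Gw y)).map dehn) ((uu S (Gw (vw z y))).map dehn) := by
  have h1 : qq (Gh (FreeGroup.mk z) * ev (Di 0) * (Gh (FreeGroup.mk z))⁻¹ * (ev (Di 0))⁻¹)
      ∈ HS S := by
    rw [map_mul, map_mul, map_mul, map_inv, map_inv]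
    apply comm_HS S hL
    · exact G_mem' S rl hD hr _ hz
    · exact Subgroup.subset_closure ⟨Di 0, hD 0, rfl⟩
  have h2 : Gh (FreeGroup.mk z) * ev (Di 0) * (Gh (FreeGroup.mk z))⁻¹ * (ev (Di 0))⁻¹ =
      Gh (FreeGroup.mk z * FreeGroup.of 0 * (FreeGroup.mk z)⁻¹ * (FreeGroup.of 0)⁻¹) := by
    have h3 := DG_all 0 (FreeGroup.mk z)⁻¹
    calc Gh (FreeGroup.mk z) * ev (Di 0) * (Gh (FreeGroup.mk z))⁻¹ * (ev (Di 0))⁻¹
        = Gh (FreeGroup.mk z) * (ev (Di 0) * Gh (FreeGroup.mk z)⁻¹ * (ev (Di 0))⁻¹) := by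
          rw [map_inv]; group
      _ = _ := by
          rw [h3, ← map_mul]
          congr 1
          group
  rw [uu, uu, List.map_append, List.map_append]
  have h4 : (blk (Gw (vw z y))).map dehn = ((blk (Gw y)).map dehn).map (MulAut.conj
      (qq (Gh (FreeGroup.mk z * FreeGroup.of 0 * (FreeGroup.mk z)⁻¹ * (FreeGroup.of 0)⁻¹)))) := by
    rw [blk, blk, map_dehn_cj, map_dehn_cj, conj_mul_map, ev_Gw, ev_Gw, mk_vw, map_mul Gh, map_mul qq]
  rw [h4]
  apply block_conj (tauS_prod S) (blk_prod _)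
  rw [h2] at h1
  exact h1

end Pool.Agent.T6.H32.HC
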