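import Mathlib
import Pool.Agent.R629.FreeCent

set_option autoImplicit false

/-! A two-generator form of Rabin's construction: the groups. -/

namespace Pool.Agent.T6.H32.HC

open SemidirectProduct

section FP

variable (M : Type) [Group M]

/-- Left translation of the basis. -/
def actL : M →* MulAut (FreeGroup M) where
  toFun g := FreeGroup.freeGroupCongr (Equiv.mulLeft g)
  map_one' := by
    apply MulEquiv.ext
    intro x
    have : (FreeGroup.freeGroupCongr (Equiv.mulLeft (1 : M))).toMonoidHom =
        (1 : MulAut (FreeGroup M)).toMonoidHom := by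
      apply FreeGroup.ext_hom
      intro a
      simp
    exact DFunLike.congr_fun this x
  map_mul' g h := by
    apply MulEquiv.ext
    intro x
    have : (FreeGroup.freeGroupCongr (Equiv.mulLeft (g * h))).toMonoidHom =
        (FreeGroup.freeGroupCongr (Equiv.mulLeft g) *
          FreeGroup.freeGroupCongr (Equiv.mulLeft h) : MulAut (FreeGroup M)).toMonoidHom := by
      apply FreeGroup.ext_hom
      intro a
      simp [mul_assoc]
    exact DFunLike.congr_fun this x

theorem actL_of (g x : M) : actL M g (FreeGroup.of x) = FreeGroup.of (g * x) := by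
  simp [actL]

theorem actL_mk (g : M) (L : List (M × Bool)) :
    actL M g (FreeGroup.mk L) = FreeGroup.mk (L.map fun x => (g * x.1, x.2)) := by
  simp [actL]

/-- The free product of `M` and an infinite cyclic group. -/
abbrev FP : Type := FreeGroup M ⋊[actL M] M

end FP

section Inj

variable {M I : Type} [Group M] (a g : I → M)

/-- The elements `a_i-th letter times g_i`. -/
def tau (i : I) : FP M := inl (FreeGroup.of (a i)) * inr (g i)

/-- The word of the free part. -/
def Wd : List (I × Bool) → List (M × Bool)
  | [] => []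
  | (i, true) :: L => (a i, true) :: (Wd L).map (fun x => (g i * x.1, x.2))
  | (i, false) :: L => ((g i)⁻¹ * a i, false) :: (Wd L).map (fun x => ((g i)⁻¹ * x.1, x.2))

theorem left_lift (L : List (I × Bool)) :
    (FreeGroup.lift (tau a g) (FreeGroup.mk L)).left = FreeGroup.mk (Wd a g L) := by
  induction L with
  | nil => simp [Wd, ← FreeGroup.one_eq_mk]
  | cons x L ih =>
    obtain ⟨i, e⟩ := x
    have h2 : FreeGroup.mk ((i, e) :: L) = FreeGroup.mk [(i, e)] * FreeGroup.mk L := by
      rw [FreeGroup.mul_mk]; rfl
    rw [h2, map_mul, SemidirectProduct.mul_left, ih]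
    cases e
    · have h3 : FreeGroup.mk [(i, false)] = (FreeGroup.of i)⁻¹ := rfl
      have h4 : (tau a g i)⁻¹ = inl (FreeGroup.of ((g i)⁻¹ * a i))⁻¹ * inr (g i)⁻¹ := by
        rw [tau, mul_inv_rev, ← map_inv, ← map_inv]
        apply SemidirectProduct.ext
        · simp only [map_inv, mul_left, inv_left, left_inr, inv_right, right_inr, left_inl, inv_inv,
            MulAut.inv_apply, inv_one, map_one, one_mul, right_inl, mul_one, MulAut.one_apply]
          rw [inv_inj, MulEquiv.symm_apply_eq, actL_of, mul_inv_cancel_left]
        · simp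
      rw [h3, map_inv, FreeGroup.lift_apply_of, h4]
      simp only [SemidirectProduct.mul_left, SemidirectProduct.mul_right, left_inl, right_inl,
        left_inr, right_inr, map_one, mul_one, one_mul, actL_mk]
      rw [Wd]
      have h5 : (FreeGroup.of ((g i)⁻¹ * a i))⁻¹ = FreeGroup.mk [((g i)⁻¹ * a i, false)] := rfl
      rw [h5, FreeGroup.mul_mk]
      rfl
    · have h3 : FreeGroup.mk [(i, true)] = FreeGroup.of i := rfl
      rw [h3, FreeGroup.lift_apply_of, tau]
      simp only [SemidirectProduct.mul_left, SemidirectProduct.mul_right, left_inl, right_inl,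
        left_inr, right_inr, map_one, mul_one, one_mul, actL_mk]
      rw [Wd]
      have h5 : FreeGroup.of (a i) = FreeGroup.mk [(a i, true)] := rfl
      rw [h5, FreeGroup.mul_mk]
      rfl

theorem map_reduced (h : M) {L : List (M × Bool)} (hL : FreeGroup.IsReduced L) :
    FreeGroup.IsReduced (L.map fun x => (h * x.1, x.2)) := by
  unfold FreeGroup.IsReduced at *
  rw [List.isChain_map]
  refine hL.imp ?_
  intro x y hxy h1
  exact hxy (mul_left_cancel h1)

theorem Wd_reduced (ha : Function.Injective a) (hb : Function.Injective fun i => (g i)⁻¹ * a i)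
    (L : List (I × Bool)) (hL : FreeGroup.IsReduced L) : FreeGroup.IsReduced (Wd a g L) := by
  induction L with
  | nil => exact List.isChain_nil
  | cons x L ih =>
    obtain ⟨i, e⟩ := x
    have hL' : FreeGroup.IsReduced L := by
      unfold FreeGroup.IsReduced at *
      exact hL.of_cons
    have ih' := ih hL'
    cases L with
    | nil => cases e <;> simp [Wd, FreeGroup.IsReduced]
    | cons y L =>
      obtain ⟨i', e'⟩ := y
      have hr : i = i' → e = e' := by
        unfold FreeGroup.IsReduced at hL
        rw [List.isChain_cons_cons] at hL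
        exact hL.1
      cases e
      · have h1 := map_reduced ((g i)⁻¹) ih'
        cases e'
        · rw [Wd]
          rw [Wd] at h1 ⊢
          rw [List.map_cons] at h1 ⊢
          unfold FreeGroup.IsReduced at h1 ⊢
          rw [List.isChain_cons_cons]
          exact ⟨fun _ => rfl, h1⟩
        · rw [Wd]
          rw [Wd] at h1 ⊢
          rw [List.map_cons] at h1 ⊢
          unfold FreeGroup.IsReduced at h1 ⊢
          rw [List.isChain_cons_cons]
          refine ⟨fun h => ?_, h1⟩
          have h2 := ha (mul_left_cancel h)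
          exact hr h2
      · have h1 := map_reduced (g i) ih'
        cases e'
        · rw [Wd]
          rw [Wd] at h1 ⊢
          rw [List.map_cons] at h1 ⊢
          unfold FreeGroup.IsReduced at h1 ⊢
          rw [List.isChain_cons_cons]
          refine ⟨fun h => ?_, h1⟩
          have h3 : (g i)⁻¹ * a i = (g i')⁻¹ * a i' := by
            simp only at h
            rw [h]
            group
          have h2 := hb h3
          exact hr h2
        · rw [Wd]
          rw [Wd] at h1 ⊢
          rw [List.map_cons] at h1 ⊢
          unfold FreeGroup.IsReduced at h1 ⊢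
          rw [List.isChain_cons_cons]
          exact ⟨fun _ => rfl, h1⟩

/-- The elements generate a free group. -/
theorem tau_injective (ha : Function.Injective a)
    (hb : Function.Injective fun i => (g i)⁻¹ * a i) :
    Function.Injective (FreeGroup.lift (tau a g)) := by
  classical
  rw [injective_iff_map_eq_one]
  intro x hx
  have h1 := left_lift a g x.toWord
  rw [FreeGroup.mk_toWord, hx, SemidirectProduct.one_left] at h1
  have h2 : FreeGroup.IsReduced (Wd a g x.toWord) :=
    Wd_reduced a g ha hb _ FreeGroup.isReduced_toWord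
  have h3 : Wd a g x.toWord = [] := by
    have := congrArg FreeGroup.toWord h1
    rw [FreeGroup.toWord_mk, h2.reduce_eq, FreeGroup.toWord_one] at this
    exact this.symm
  rw [← FreeGroup.toWord_eq_nil_iff]
  cases h4 : x.toWord with
  | nil => rfl
  | cons y L =>
    rw [h4] at h3
    obtain ⟨i, e⟩ := y
    cases e <;> simp [Wd] at h3

end Inj

section Conj

/-- The infinite cyclic group. -/
abbrev Zm : Type := Multiplicative ℤ

/-- The letter `s`. -/
def sE (M : Type) [Group M] : FP M := inl (FreeGroup.of 1)

/-- The endomorphism of `FP ℤ` which exchanges the two generators. -/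
def swapE : FP Zm →* FP Zm :=
  SemidirectProduct.lift
    (FreeGroup.lift fun k : Zm => sE Zm ^ k.toAdd * inr (Multiplicative.ofAdd 1) *
      (sE Zm ^ k.toAdd)⁻¹)
    (zpowersHom _ (sE Zm)) (by
      intro g
      apply FreeGroup.ext_hom
      intro k
      simp only [MonoidHom.comp_apply, MulEquiv.coe_toMonoidHom, actL_of, FreeGroup.lift_apply_of,
        MulAut.conj_apply, zpowersHom_apply, toAdd_mul, zpow_add]
      group)

theorem swapE_s : swapE (sE Zm) = inr (Multiplicative.ofAdd 1) := by
  unfold swapE
  change SemidirectProduct.lift _ _ _ (inl (FreeGroup.of 1)) = _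
  rw [SemidirectProduct.lift_inl, FreeGroup.lift_apply_of]
  simp

theorem swapE_b : swapE (inr (Multiplicative.ofAdd 1)) = sE Zm := by
  rw [swapE, SemidirectProduct.lift_inr, zpowersHom_apply]
  simp

/-- The conjugates `s⁻ⁱ b sⁱ` in `FP ℤ`. -/
theorem conj_injective_Z : Function.Injective (FreeGroup.lift fun i : ℕ =>
    ((sE Zm ^ i)⁻¹ * inr (Multiplicative.ofAdd 1) * sE Zm ^ i : FP Zm)) := by
  have h : swapE.comp (FreeGroup.lift fun i : ℕ =>
      ((sE Zm ^ i)⁻¹ * inr (Multiplicative.ofAdd 1) * sE Zm ^ i : FP Zm)) =
      (inl : FreeGroup Zm →* FP Zm).comp (FreeGroup.map fun i : ℕ =>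
        Multiplicative.ofAdd (-(i : ℤ))) := by
    apply FreeGroup.ext_hom
    intro i
    simp only [MonoidHom.comp_apply, FreeGroup.lift_apply_of, map_mul, map_inv, map_pow, swapE_s,
      swapE_b, FreeGroup.map.of]
    rw [← map_pow, ← map_inv]
    apply SemidirectProduct.ext
    · simp only [sE, SemidirectProduct.mul_left, SemidirectProduct.mul_right, left_inl, right_inl,
        left_inr, right_inr, map_one, mul_one, one_mul, actL_of]
      congr 1
      rw [← ofAdd_nsmul, ← ofAdd_neg]
      simp
    · simp [sE]
  have h2 : Function.Injective (swapE.comp (FreeGroup.lift fun i : ℕ =>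
      ((sE Zm ^ i)⁻¹ * inr (Multiplicative.ofAdd 1) * sE Zm ^ i : FP Zm))) := by
    rw [h]
    refine inl_injective.comp (FreeGroup.map_injective ?_)
    intro i j hij
    have := Multiplicative.ofAdd.injective hij
    omega
  exact Function.Injective.of_comp (f := swapE) h2

variable {M : Type} [Group M]

/-- Functoriality of the free product. -/
def mapFP {N : Type} [Group N] (f : N →* M) : FP N →* FP M :=
  SemidirectProduct.map (FreeGroup.map f) f (by
    intro g
    apply FreeGroup.ext_hom
    intro x
    simp [actL_of])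

theorem mapFP_injective {N : Type} [Group N] (f : N →* M) (hf : Function.Injective f) :
    Function.Injective (mapFP f) := by
  intro x y hxy
  have h1 := congrArg SemidirectProduct.left hxy
  have h2 := congrArg SemidirectProduct.right hxy
  simp only [mapFP, SemidirectProduct.map_left, SemidirectProduct.map_right] at h1 h2
  exact SemidirectProduct.ext (FreeGroup.map_injective hf h1) (hf h2)

/-- The conjugates `s⁻ⁱ b sⁱ` generate a free group if `b` has infinite order. -/
theorem conj_injective (b : M) (hb : Function.Injective fun k : ℤ => b ^ k) :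
    Function.Injective (FreeGroup.lift fun i : ℕ =>
      ((sE M ^ i)⁻¹ * inr b * sE M ^ i : FP M)) := by
  have h0 : Function.Injective (zpowersHom M b) := by
    intro k l hkl
    rw [zpowersHom_apply, zpowersHom_apply] at hkl
    exact Multiplicative.toAdd.injective (hb hkl)
  have h : (mapFP (zpowersHom M b)).comp (FreeGroup.lift fun i : ℕ =>
      ((sE Zm ^ i)⁻¹ * inr (Multiplicative.ofAdd 1) * sE Zm ^ i : FP Zm)) =
      FreeGroup.lift fun i : ℕ => ((sE M ^ i)⁻¹ * inr b * sE M ^ i : FP M) := by
    apply FreeGroup.ext_hom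
    intro i
    have e1 : mapFP (zpowersHom M b) (sE Zm) = sE M := by
      simp [mapFP, sE]
    have e2 : mapFP (zpowersHom M b) (inr (Multiplicative.ofAdd 1)) = inr b := by
      simp [mapFP]
    simp only [MonoidHom.comp_apply, FreeGroup.lift_apply_of, map_mul, map_inv, map_pow, e1, e2]
  rw [← h]
  exact (mapFP_injective _ h0).comp conj_injective_Z

end Conj

section HNN

theorem exists_hnn {S G : Type} [Group S] [Group G] (j j' : S →* G) (hj : Function.Injective j)
    (hj' : Function.Injective j') :
    ∃ (M : Type) (_ : Group M) (ι : G →* M) (t : M) (ε : M →* Zm), Function.Injective ι ∧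
      (∀ s, t * ι (j s) * t⁻¹ = ι (j' s)) ∧ (∀ g, ε (ι g) = 1) ∧ ε t = Multiplicative.ofAdd 1 := by
  let φ : j.range ≃* j'.range := (MonoidHom.ofInjective hj).symm.trans (MonoidHom.ofInjective hj')
  refine ⟨HNNExtension G j.range j'.range φ, inferInstance, HNNExtension.of, HNNExtension.t,
    HNNExtension.lift 1 (Multiplicative.ofAdd 1) (by intro a; simp), HNNExtension.of_injective φ,
    ?_, ?_, ?_⟩
  · intro s
    have h := HNNExtension.t_mul_of (φ := φ) (MonoidHom.ofInjective hj s)
    have h1 : ((MonoidHom.ofInjective hj s : j.range) : G) = j s := rfl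
    have h2 : ((φ (MonoidHom.ofInjective hj s) : j'.range) : G) = j' s := by
      simp only [φ, MulEquiv.trans_apply, MulEquiv.symm_apply_apply]
      rfl
    rw [h1, h2] at h
    rw [h, mul_inv_cancel_right]
  · intro g
    simp
  · simp

end HNN

section Words

variable {H : Type} [Group H]

/-- `s = d⁻¹ b d`. -/
def ss (b d : H) : H := d⁻¹ * b * d

/-- `d⁻¹ (s⁻ⁱ b sⁱ) d`. -/
def bt (b d : H) (i : ℕ) : H := d⁻¹ * ((ss b d ^ i)⁻¹ * b * ss b d ^ i) * d

/-- `b⁻ⁱ s bⁱ`. -/
def rr (b d : H) (i : ℕ) : H := (b ^ i)⁻¹ * ss b d * b ^ i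

/-- The element with number `i` expressed by the two generators. -/
def gg (b d : H) (i : ℕ) : H := bt b d i * (rr b d i)⁻¹

theorem map_gg {H' : Type} [Group H'] (f : H →* H') (b d : H) (i : ℕ) :
    f (gg b d i) = gg (f b) (f d) i := by
  simp [gg, bt, rr, ss]

theorem gg_one (d : H) (i : ℕ) : gg 1 d i = 1 := by
  simp [gg, bt, rr, ss]

end Words

/-- Numbers of the generators. -/
def num {m : ℕ} : Option (Option (Fin m)) → ℕ
  | none => 0
  | some none => 1
  | some (some i) => i.val + 2

theorem num_injective {m : ℕ} : Function.Injective (num : Option (Option (Fin m)) → ℕ) := by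
  intro x y h
  rcases x with _ | _ | i <;> rcases y with _ | _ | j <;> simp [num] at h ⊢
  exact Fin.ext h

theorem zpow_inj {X : Type} {g : FreeGroup X} (hg : g ≠ 1) {k l : ℤ} (h : g ^ k = g ^ l) :
    k = l := by
  have h1 : g ^ (k - l) = 1 := by rw [zpow_sub, h, mul_inv_cancel]
  have := Pool.Agent.R629.FreeCent.torsionFree hg h1
  omega

/-- Rabin's construction: if `w ≠ 1`, there is a group with elements `b ≠ 1` and `d` such that the
`x i` are given by words in `b, d` and `[w, b] = t b t⁻¹` for a word `t` in `b, d`. -/
theorem exists_group {m : ℕ} {G : Type} [Group G] (x : Fin m → G) (w : G) (hw : w ≠ 1) :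
    ∃ (M : Type) (_ : Group M) (ι : G →* M) (b d : M), b ≠ 1 ∧
      (∀ i : Fin m, gg b d (i.val + 2) = ι (x i)) ∧
      ι w * b * (ι w)⁻¹ * b⁻¹ = gg b d 1 * b * (gg b d 1)⁻¹ := by
  classical
  -- `M₁ = G * ⟨b⟩`
  let b1 : FP G := inl (FreeGroup.of 1)
  let c1 : FP G := inr w * b1 * (inr w)⁻¹ * b1⁻¹
  have hc1 : c1 = inl (FreeGroup.of w * (FreeGroup.of 1)⁻¹) := by
    apply SemidirectProduct.ext
    · simp [c1, b1, actL_of]
    · simp [c1, b1]
  have hb1z : Function.Injective fun k : ℤ => b1 ^ k := by
    intro k l hkl
    simp only [b1, ← map_zpow] at hkl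
    exact zpow_inj (FreeGroup.of_ne_one 1) (inl_injective hkl)
  have hc1z : Function.Injective fun k : ℤ => c1 ^ k := by
    intro k l hkl
    simp only [hc1, ← map_zpow] at hkl
    refine zpow_inj ?_ (inl_injective hkl)
    intro h
    rw [mul_inv_eq_one] at h
    exact hw (FreeGroup.of_injective h)
  -- `θ` kills `G` and counts the letters
  let θ : FP G →* Zm := SemidirectProduct.lift (FreeGroup.lift fun _ => Multiplicative.ofAdd 1) 1 (by
    intro g
    apply FreeGroup.ext_hom
    intro y
    simp [actL_of])
  have θb : θ b1 = Multiplicative.ofAdd 1 := by simp [θ, b1]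
  have θx : ∀ g : G, θ (inr g) = 1 := by intro g; simp [θ]
  -- the first HNN extension
  obtain ⟨M1, _, ι1, t, ε, hι1, ht, hε, hεt⟩ := exists_hnn (zpowersHom (FP G) b1)
    (zpowersHom (FP G) c1)
    (fun k l hkl => by
      rw [zpowersHom_apply, zpowersHom_apply] at hkl
      exact Multiplicative.toAdd.injective (hb1z hkl))
    (fun k l hkl => by
      rw [zpowersHom_apply, zpowersHom_apply] at hkl
      exact Multiplicative.toAdd.injective (hc1z hkl))
  have ht1 : t * ι1 b1 * t⁻¹ = ι1 c1 := by
    have := ht (Multiplicative.ofAdd 1)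
    simpa [zpowersHom_apply] using this
  have hb2 : Function.Injective fun k : ℤ => (ι1 b1) ^ k := by
    intro k l hkl
    simp only [← map_zpow] at hkl
    exact hb1z (hι1 hkl)
  -- the elements to be expressed
  let g : Option (Option (Fin m)) → M1 := fun i => match i with
    | none => 1
    | some none => t
    | some (some i) => ι1 (inr (x i))
  let a : Option (Option (Fin m)) → M1 := fun i => g i * ((ι1 b1) ^ num i)⁻¹
  have hga : ∀ i, (g i)⁻¹ * a i = ((ι1 b1) ^ num i)⁻¹ := by intro i; simp [a]
  have hb : Function.Injective fun i => (g i)⁻¹ * a i := by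
    intro i j hij
    simp only [hga, inv_inj] at hij
    have h1 : (ι1 b1) ^ ((num i : ℕ) : ℤ) = (ι1 b1) ^ ((num j : ℕ) : ℤ) := by
      rw [zpow_natCast, zpow_natCast]; exact hij
    exact num_injective (by exact_mod_cast hb2 h1)
  have hεa : ∀ i, ε (a i) = ε (g i) := by
    intro i
    simp [a, hε]
  have hne : ∀ i : Option (Option (Fin m)), i ≠ some none → ∃ y : G, g i = ι1 (inr y) := by
    intro i hi
    rcases i with _ | _ | i
    · exact ⟨1, by simp [g]⟩
    · exact absurd rfl hi
    · exact ⟨x i, rfl⟩
  have ha : Function.Injective a := by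
    intro i j hij
    by_cases hi : i = some none
    · by_cases hj : j = some none
      · rw [hi, hj]
      · exfalso
        obtain ⟨y, hy⟩ := hne j hj
        have h1 := congrArg ε hij
        rw [hεa, hεa, hy, hε, hi] at h1
        change ε t = 1 at h1
        rw [hεt] at h1
        exact absurd h1 (by decide)
    · by_cases hj : j = some none
      · exfalso
        obtain ⟨y, hy⟩ := hne i hi
        have h1 := congrArg ε hij
        rw [hεa, hεa, hy, hε, hj] at h1
        change 1 = ε t at h1
        rw [hεt] at h1
        exact absurd h1 (by decide)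
      · obtain ⟨y, hy⟩ := hne i hi
        obtain ⟨y', hy'⟩ := hne j hj
        simp only [a, hy, hy', ← map_pow, ← map_inv, ← map_mul] at hij
        have h1 := congrArg θ (hι1 hij)
        rw [map_mul, map_mul, θx, θx, map_inv, map_inv, map_pow, map_pow, θb, one_mul, one_mul,
          inv_inj, ← ofAdd_nsmul, ← ofAdd_nsmul] at h1
        have h2 := Multiplicative.ofAdd.injective h1
        apply num_injective
        simpa using h2
  -- the second HNN extension
  obtain ⟨M, _, ι, d', _, hι, hd, -, -⟩ := exists_hnn (G := FP M1)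
    (FreeGroup.lift fun i : Option (Option (Fin m)) =>
      ((sE M1 ^ num i)⁻¹ * inr (ι1 b1) * sE M1 ^ num i : FP M1))
    (FreeGroup.lift (tau a g))
    (by
      have h1 := conj_injective (ι1 b1) hb2
      have h2 : (FreeGroup.lift fun i : Option (Option (Fin m)) =>
          ((sE M1 ^ num i)⁻¹ * inr (ι1 b1) * sE M1 ^ num i : FP M1)) =
          (FreeGroup.lift fun i : ℕ =>
            ((sE M1 ^ i)⁻¹ * inr (ι1 b1) * sE M1 ^ i : FP M1)).comp (FreeGroup.map num) := by
        apply FreeGroup.ext_hom
        intro i
        simp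
      rw [h2]
      exact h1.comp (FreeGroup.map_injective num_injective))
    (tau_injective a g ha hb)
  let b : M := ι (inr (ι1 b1))
  let d : M := d'⁻¹
  have hs : ss b d = ι (sE M1) := by
    have := hd (FreeGroup.of none)
    rw [FreeGroup.lift_apply_of, FreeGroup.lift_apply_of] at this
    simp only [num, pow_zero, inv_one, one_mul, mul_one] at this
    rw [ss]
    simp only [d, inv_inv, b]
    rw [this]
    congr 1
    simp [tau, a, g, num, sE]
  have hbt : ∀ i : Option (Option (Fin m)), bt b d (num i) = ι (tau a g i) := by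
    intro i
    have := hd (FreeGroup.of i)
    rw [FreeGroup.lift_apply_of, FreeGroup.lift_apply_of] at this
    rw [bt, hs, ← this]
    simp only [d, inv_inv, b, map_mul, map_inv, map_pow]
  have hrr : ∀ i : Option (Option (Fin m)), rr b d (num i) =
      ι ((inr (ι1 b1) ^ num i)⁻¹ * sE M1 * inr (ι1 b1) ^ num i) := by
    intro i
    rw [rr, hs]
    simp only [b, map_mul, map_inv, map_pow]
  have hgg : ∀ i : Option (Option (Fin m)), gg b d (num i) = ι (inr (g i)) := by
    intro i
    rw [gg, hbt, hrr, ← map_inv, ← map_mul]
    congr 1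
    have e : tau a g i = inr (g i) * ((inr (ι1 b1) ^ num i)⁻¹ * sE M1 * inr (ι1 b1) ^ num i) := by
      rw [← map_pow, ← map_inv]
      apply SemidirectProduct.ext
      · simp only [tau, a, sE, mul_left, left_inl, right_inl, left_inr, right_inr, map_one,
          mul_one, one_mul, mul_right, actL_of, MulAut.one_apply]
      · simp only [tau, sE, mul_right, right_inl, right_inr, mul_one, one_mul, inv_mul_cancel]
    rw [e, mul_inv_cancel_right]
  refine ⟨M, inferInstance, ι.comp (inr.comp (ι1.comp inr)), b, d, ?_, ?_, ?_⟩
  · intro h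
    have h1 : (inr (ι1 b1) : FP M1) = 1 := hι (by rw [map_one]; exact h)
    have h2 : ι1 b1 = 1 := inr_injective (by rw [map_one]; exact h1)
    have h3 := hb2 (a₁ := 1) (a₂ := 0) (by simp [h2])
    omega
  · intro i
    exact hgg (some (some i))
  · have h1 := hgg (some none)
    change gg b d 1 = ι (inr t) at h1
    rw [h1]
    have h2 : ι (inr (t * ι1 b1 * t⁻¹)) = ι (inr (ι1 c1)) := by rw [ht1]
    simp only [map_mul, map_inv] at h2
    simp only [MonoidHom.comp_apply, b]
    rw [h2]
    simp only [c1, map_mul, map_inv]

end Pool.Agent.T6.H32.HC
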