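import Pool.Agent.T6.H32.HC.Crit
import Pool.Agent.Y524H.WP2

set_option autoImplicit false

/-! The undecidability of equivalence up to Hurwitz moves and global conjugation. -/

namespace Pool.Agent.T6.H32.HC

open Pool.Agent.Y524H

section

variable {M : Type} [Group M]

theorem Phi_comp {K : Type} [Group K] (f : K →* M) (p : Fin 2 → K) (s : K) :
    f.comp (Phi p s) = Phi (fun i => f (p i)) (f s) := by
  apply MonoidHom.eq_of_eqOn_dense vv_gen
  rintro _ ⟨j, rfl⟩
  rw [MonoidHom.comp_apply, Phi_vv p s j, Phi_vv _ _ j,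
    PT_getD _ _ _ (Nat.mod_lt _ (by norm_num)), PT_getD _ _ _ (Nat.mod_lt _ (by norm_num))]
  split_ifs <;> simp [yy, den, dl]

/-- The universal homomorphism. -/
def Phf : Pi1 →* FreeGroup (Fin 2) := Phi FreeGroup.of 1

theorem Phf_surjective : Function.Surjective Phf := by
  have h : (⊤ : Subgroup (FreeGroup (Fin 2))) ≤ Phf.range := by
    rw [← FreeGroup.closure_range_of, Subgroup.closure_le]
    rintro _ ⟨i, rfl⟩
    fin_cases i
    · refine ⟨vv 1, ?_⟩
      rw [Phf, Phi_vv]
      simp [PT, yy, den, dl]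
    · refine ⟨vv 5, ?_⟩
      rw [Phf, Phi_vv]
      simp [PT, yy, den, dl]
  intro x
  exact h (Subgroup.mem_top x)

theorem Phi_eq (p : Fin 2 → M) : Phi p 1 = (FreeGroup.lift p).comp Phf := by
  rw [Phf, Phi_comp, map_one]
  congr 1
  funext i
  rw [FreeGroup.lift_apply_of]

theorem sub_stab (p : Fin 2 → M) {w : Word} {T : List (List ℕ)} (hT : tabW w = T)
    (h : comp (PT []) T = PT []) (x : Pi1) : Phi p 1 (ev w x) = Phi p 1 x :=
  DFunLike.congr_fun (stab_of_table p (ev_isTab w) (hT ▸ h)) x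

/-- The homomorphism is preserved by the twists of the relation. -/
theorem r0e_stab (p : Fin 2 → M) : ∀ e ∈ r0e, ∀ x,
    Phi p 1 ((ev e.2 * TT e.1 * (ev e.2)⁻¹) x) = Phi p 1 x := by
  have h : ∀ w : Word, ∀ T, tabW (w ++ [lA 0] ++ invWd w) = T → comp (PT []) T = PT [] →
      ∀ e : Entry, e = (0, w) → ∀ x, Phi p 1 ((ev e.2 * TT e.1 * (ev e.2)⁻¹) x) = Phi p 1 x := by
    intro w T hT hP e he x
    have e1 : ev (w ++ [lA 0] ++ invWd w) = ev w * TT 0 * (ev w)⁻¹ := by
      rw [ev_append, ev_append, ev_invWd, ev_single]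
      rfl
    subst he
    rw [← e1]
    exact sub_stab p hT hP x
  intro e he
  simp only [r0e, List.mem_cons, List.not_mem_nil, or_false] at he
  rcases he with he | he | he | he | he | he | he | he
  · exact h _ _ tT0_ok (by decide +kernel) e he
  · exact h _ _ tT1_ok (by decide +kernel) e he
  · exact h _ _ tT2_ok (by decide +kernel) e he
  · exact h _ _ tT3_ok (by decide +kernel) e he
  · exact h _ _ tT4_ok (by decide +kernel) e he
  · exact h _ _ tT5_ok (by decide +kernel) e he
  · exact h _ _ tT6_ok (by decide +kernel) e he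
  · intro x
    have e0 : ev ([] : Word) = 1 := rfl
    have e1 : TT 3 = sepTwist 3 := if_neg (by decide)
    subst he
    change Phi p 1 ((ev ([] : Word) * TT 3 * (ev ([] : Word))⁻¹) x) = _
    rw [e0, e1, one_mul, inv_one, mul_one]
    exact DFunLike.congr_fun (stab_of_table p (sep_isTab 3) (by decide +kernel)) x

theorem Gw_stab (p : Fin 2 → M) {w : List (Fin 2 × Bool)}
    (hw : FreeGroup.lift p (FreeGroup.mk w) = 1) (x : Pi1) :
    Phi p 1 (ev (Gw w) x) = Phi p 1 x := by
  rw [ev_Gw]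
  have h4 := DFunLike.congr_fun (Phi_Gh p (FreeGroup.mk w) 1) x
  rw [hw, mul_one] at h4
  exact h4

theorem S1_stab (p : Fin 2 → M) {rl : List (List (Fin 2 × Bool))}
    (hr : ∀ r ∈ rl, FreeGroup.lift p (FreeGroup.mk r) = 1) : ∀ s ∈ S1 rl, ∀ x,
    Phi p 1 (ev s x) = Phi p 1 x := by
  intro s hs
  simp only [S1, List.mem_append, List.mem_cons, List.not_mem_nil, or_false, List.mem_map] at hs
  rcases hs with (rfl | rfl | rfl | rfl | rfl | rfl) | ⟨w, hw, rfl⟩
  · exact sub_stab p tD0_ok (by decide +kernel)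
  · exact sub_stab p tD1_ok (by decide +kernel)
  · exact sub_stab p rfl (by decide +kernel)
  · exact sub_stab p rfl (by decide +kernel)
  · exact sub_stab p rfl (by decide +kernel)
  · exact sub_stab p rfl (by decide +kernel)
  · exact Gw_stab p (hr w hw)

/-- The homomorphism kills the vanishing cycles. -/
theorem Phi_kills (p : Fin 2 → M) {rl : List (List (Fin 2 × Bool))}
    (hr : ∀ r ∈ rl, FreeGroup.lift p (FreeGroup.mk r) = 1) {v : List (Fin 2 × Bool)}
    (hv : FreeGroup.lift p (FreeGroup.mk v) = 1) :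
    Kills (Phi p 1) ((uu (S1 rl) (Gw v)).map dehn) := by
  intro φ k hk
  rw [List.mem_map] at hk
  obtain ⟨x, hx, hxk⟩ := hk
  obtain ⟨s, e, hs, he, rfl⟩ := of_mem_uu _ _ hx
  have hstab : ∀ x, Phi p 1 (ev s x) = Phi p 1 x := by
    rcases hs with rfl | hs | rfl
    · intro x
      have e0 : ev ([] : Word) = 1 := rfl
      rw [e0, MulAut.one_apply]
    · rcases List.mem_append.1 hs with hs | hs
      · exact S1_stab p hr s hs
      · rw [List.mem_flatMap] at hs
        obtain ⟨s1, hs1, hs⟩ := hs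
        rw [List.mem_map] at hs
        obtain ⟨s2, hs2, rfl⟩ := hs
        intro x
        rw [ev_append, MulAut.mul_apply, S1_stab p hr s1 hs1, S1_stab p hr s2 hs2]
    · exact Gw_stab p hv
  let D : MulAut Pi1 := ev e.2 * TT e.1 * (ev e.2)⁻¹
  have hD : dehn (cj s e) = qq (ev s * D * (ev s)⁻¹) := by
    rw [dehn_eq]
    change qq (ev (s ++ e.2) * TT e.1 * (ev (s ++ e.2))⁻¹) = _
    rw [ev_append]
    simp only [D, mul_inv_rev, mul_assoc]
  rw [hD] at hxk
  obtain ⟨c, hc⟩ : ∃ c, MulAut.conj c = (ev s * D * (ev s)⁻¹)⁻¹ * (φ * TT k * φ⁻¹) :=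
    QuotientGroup.eq.1 hxk
  have hfix : ∀ x, Phf (D x) = Phf x := r0e_stab FreeGroup.of e he
  let Ψ : Pi1 →* FreeGroup (Fin 2) := Phf.comp (((ev s)⁻¹ * φ : MulAut Pi1)).toMonoidHom
  have hΨsurj : Function.Surjective Ψ := by
    intro y
    obtain ⟨x, rfl⟩ := Phf_surjective y
    refine ⟨((ev s)⁻¹ * φ)⁻¹ x, ?_⟩
    change Phf (((ev s)⁻¹ * φ) (((ev s)⁻¹ * φ)⁻¹ x)) = Phf x
    rw [MulAut.apply_inv_self]
  have hΨ : ∀ x, Ψ (TT k x) = Phf ((ev s)⁻¹ c) * Ψ x * (Phf ((ev s)⁻¹ c))⁻¹ := by
    intro x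
    have e1 : φ (TT k x) = (ev s * D * (ev s)⁻¹) (c * φ x * c⁻¹) := by
      have h1 : (ev s * D * (ev s)⁻¹) * MulAut.conj c = φ * TT k * φ⁻¹ := by
        rw [hc, mul_inv_cancel_left]
      have h2 := DFunLike.congr_fun h1 (φ x)
      rw [MulAut.mul_apply, MulAut.conj_apply] at h2
      rw [h2, MulAut.mul_apply, MulAut.mul_apply, MulAut.inv_apply_self]
    change Phf ((ev s)⁻¹ (φ (TT k x))) = Phf ((ev s)⁻¹ c) * Phf ((ev s)⁻¹ (φ x)) *
      (Phf ((ev s)⁻¹ c))⁻¹
    rw [e1, MulAut.mul_apply, MulAut.mul_apply, MulAut.inv_apply_self, hfix, map_mul (ev s)⁻¹,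
      map_mul (ev s)⁻¹, map_inv (ev s)⁻¹, map_mul, map_mul, map_inv]
  have h3 := star Ψ hΨsurj k _ hΨ
  have h4 : Phf ((ev s)⁻¹ (φ (CC k))) = 1 := h3
  have h5 : Phi p 1 ((ev s)⁻¹ (φ (CC k))) = 1 := by
    rw [Phi_eq, MonoidHom.comp_apply, h4, map_one]
  rw [← hstab, MulAut.apply_inv_self] at h5
  exact h5

theorem Pr_of (p : Fin 2 → M) {rl : List (List (Fin 2 × Bool))}
    (hr : ∀ r ∈ rl, FreeGroup.lift p (FreeGroup.mk r) = 1) {v : List (Fin 2 × Bool)}
    (hv : FreeGroup.lift p (FreeGroup.mk v) = 1) (hp : p 0 * p 1 ≠ p 1 * p 0) :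
    Pr M ((uu (S1 rl) (Gw v)).map dehn) := by
  refine ⟨?_, Phi p 1, Phi_kills p hr hv, vv 1, vv 5, ?_⟩
  · intro t ht
    rw [List.mem_map] at ht
    obtain ⟨x, _, rfl⟩ := ht
    exact ⟨_, _, dehn_eq x⟩
  · have h1 : Phi p 1 (vv 1) = p 0 := by
      rw [Phi_vv]
      simp [PT, yy, den, dl]
    have h5 : Phi p 1 (vv 5) = p 1 := by
      rw [Phi_vv]
      simp [PT, yy, den, dl]
    rw [h1, h5]
    exact hp

end

/-! ### The reduction -/

/-- The words `X_i`. -/
def Xw (i : ℕ) : List (Fin 2 × Bool) := (gg (FreeGroup.of 0) (FreeGroup.of (1 : Fin 2)) i).toWord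

/-- The word `T b⁻¹ T⁻¹`. -/
def yw : List (Fin 2 × Bool) := (gg (FreeGroup.of 0) (FreeGroup.of (1 : Fin 2)) 1 *
  (FreeGroup.of 0)⁻¹ * (gg (FreeGroup.of 0) (FreeGroup.of (1 : Fin 2)) 1)⁻¹).toWord

/-- Substitution of words for letters. -/
def sb {m : ℕ} (w : List (Fin m × Bool)) : List (Fin 2 × Bool) :=
  w.flatMap fun x => if x.2 then Xw (x.1.val + 2) else iw (Xw (x.1.val + 2))

theorem mk_sb {m : ℕ} (w : List (Fin m × Bool)) : FreeGroup.mk (sb w) =
    FreeGroup.lift (fun i : Fin m => FreeGroup.mk (Xw (i.val + 2))) (FreeGroup.mk w) := by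
  induction w with
  | nil => simp [sb, ← FreeGroup.one_eq_mk]
  | cons x w ih =>
    have h1 : sb (x :: w) =
        (if x.2 then Xw (x.1.val + 2) else iw (Xw (x.1.val + 2))) ++ sb w := by
      simp [sb]
    have h2 : FreeGroup.mk (x :: w) = FreeGroup.mk [x] * FreeGroup.mk w := by
      rw [FreeGroup.mul_mk]; rfl
    rw [h1, ← FreeGroup.mul_mk, ih, h2, map_mul]
    congr 1
    obtain ⟨i, e⟩ := x
    cases e
    · have : FreeGroup.mk [(i, false)] = (FreeGroup.of i)⁻¹ := rfl
      rw [this, map_inv, FreeGroup.lift_apply_of]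
      simp [mk_iw]
    · have : FreeGroup.mk [(i, true)] = FreeGroup.of i := rfl
      rw [this, FreeGroup.lift_apply_of]
      simp

theorem sb_primrec {m : ℕ} : Primrec (sb : List (Fin m × Bool) → List (Fin 2 × Bool)) := by
  have h0 : Primrec (fun x : Fin m × Bool =>
      if x.2 then Xw (x.1.val + 2) else iw (Xw (x.1.val + 2))) := Primrec.dom_finite _
  have h : Primrec₂ (fun (_ : List (Fin m × Bool)) (x : Fin m × Bool) =>
      if x.2 then Xw (x.1.val + 2) else iw (Xw (x.1.val + 2))) := h0.comp Primrec.snd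
  exact Primrec.list_flatMap Primrec.id h

theorem iw_primrec : Primrec (iw : List (Fin 2 × Bool) → List (Fin 2 × Bool)) := by
  have hf : Primrec (fun l : Fin 2 × Bool => ((l.1, !l.2) : Fin 2 × Bool)) := Primrec.dom_finite _
  have h2 : Primrec₂ (fun (_ : List (Fin 2 × Bool)) (l : Fin 2 × Bool) =>
      ((l.1, !l.2) : Fin 2 × Bool)) := hf.comp Primrec.snd
  exact Primrec.list_reverse.comp (Primrec.list_map Primrec.id h2)

theorem Gw_primrec : Primrec Gw := by
  have h0 : Primrec (fun x : Fin 2 × Bool => if x.2 then Gi x.1 else invWd (Gi x.1)) :=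
    Primrec.dom_finite _
  have h : Primrec₂ (fun (_ : List (Fin 2 × Bool)) (x : Fin 2 × Bool) =>
      if x.2 then Gi x.1 else invWd (Gi x.1)) := h0.comp Primrec.snd
  exact Primrec.list_flatMap Primrec.id h

theorem blk_primrec : Primrec blk := by
  have h : Primrec₂ (fun (s : Word) (e : Entry) => cj s e) := by
    have : Primrec (fun p : Word × Entry => ((p.2.1, p.1 ++ p.2.2) : Entry)) :=
      Primrec.pair (Primrec.fst.comp Primrec.snd)
        (Primrec.list_append.comp Primrec.fst (Primrec.snd.comp Primrec.snd))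
    exact this
  exact Primrec.list_map (Primrec.const R0e) h

theorem red_computable (S : List Word) {m : ℕ} {W : ℕ → List (Fin m × Bool)} (hW : Computable W) :
    Computable fun n => uu S (Gw (vw (sb (W n)) yw)) := by
  have h1 : Primrec fun z : List (Fin 2 × Bool) => vw z yw := by
    unfold vw
    exact Primrec.list_append.comp (Primrec.list_append.comp (Primrec.list_append.comp
      (Primrec.list_append.comp Primrec.id (Primrec.const _)) iw_primrec) (Primrec.const _))
      (Primrec.const _)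
  have h2 : Primrec fun g : Word => uu S g := by
    unfold uu
    exact Primrec.list_append.comp (Primrec.const _) blk_primrec
  exact (h2.comp (Gw_primrec.comp (h1.comp sb_primrec))).to_comp.comp hW

/-- The relators. -/
noncomputable def rls {m : ℕ} (R : Finset (FreeGroup (Fin m))) : List (List (Fin 2 × Bool)) :=
  R.toList.map fun r => sb r.toWord

section

variable {m : ℕ} (R : Finset (FreeGroup (Fin m)))

/-- If the word is trivial, the factorizations are equivalent. -/
theorem equiv_of_mem' {w : List (Fin m × Bool)}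
    (hw : FreeGroup.mk w ∈ Subgroup.normalClosure (R : Set (FreeGroup (Fin m)))) :
    HurwitzEquiv ((uu (S1 (rls R)) (Gw yw)).map dehn)
      ((uu (S1 (rls R)) (Gw (vw (sb w) yw))).map dehn) := by
  apply equiv_A (S1 (rls R)) (rls R) (isL_S1 _)
  · intro i
    fin_cases i <;> simp [S1]
  · intro r hr
    rw [S1]
    exact List.mem_append_right _ (List.mem_map_of_mem hr)
  · rw [mk_sb]
    set V : FreeGroup (Fin m) →* FreeGroup (Fin 2) :=
      FreeGroup.lift (fun i : Fin m => FreeGroup.mk (Xw (i.val + 2))) with hV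
    have h2 : (Subgroup.normalClosure (R : Set (FreeGroup (Fin m)))).map V ≤
        Subgroup.normalClosure (Rel (rls R)) := by
      rw [Subgroup.map_le_iff_le_comap]
      apply Subgroup.normalClosure_le_normal
      intro r hr
      refine Subgroup.subset_normalClosure ⟨sb r.toWord, ?_, ?_⟩
      · exact List.mem_map_of_mem (f := fun r => sb r.toWord) (Finset.mem_toList.2 hr)
      · rw [mk_sb, FreeGroup.mk_toWord]
    exact h2 (Subgroup.mem_map_of_mem V hw)

/-- If the word is not trivial, the factorizations are not equivalent. -/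
theorem mem_of_equiv' {Γ : Subgroup OutPi} {w : List (Fin m × Bool)}
    (h : ConjEquiv Γ ((uu (S1 (rls R)) (Gw yw)).map dehn)
      ((uu (S1 (rls R)) (Gw (vw (sb w) yw))).map dehn)) :
    FreeGroup.mk w ∈ Subgroup.normalClosure (R : Set (FreeGroup (Fin m))) := by
  by_contra hw
  have hw' : (PresentedGroup.mk (R : Set (FreeGroup (Fin m))) (FreeGroup.mk w)) ≠ 1 := by
    intro h1
    exact hw ((QuotientGroup.eq_one_iff _).1 h1)
  obtain ⟨M, _, ι, b, d, hb, hx, hbw⟩ := exists_group
    (fun i : Fin m => (PresentedGroup.of i : PresentedGroup (R : Set (FreeGroup (Fin m))))) _ hw'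
  set p : Fin 2 → M := ![b, d] with hp
  have hX : ∀ i, FreeGroup.lift p (FreeGroup.mk (Xw i)) = gg b d i := by
    intro i
    rw [Xw, FreeGroup.mk_toWord, map_gg, FreeGroup.lift_apply_of, FreeGroup.lift_apply_of]
    rfl
  have hsb : ∀ u : List (Fin m × Bool), FreeGroup.lift p (FreeGroup.mk (sb u)) =
      ι (PresentedGroup.mk (R : Set (FreeGroup (Fin m))) (FreeGroup.mk u)) := by
    intro u
    have h1 : (FreeGroup.lift p).comp (FreeGroup.lift
        (fun i : Fin m => FreeGroup.mk (Xw (i.val + 2)))) =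
        ι.comp (PresentedGroup.mk (R : Set (FreeGroup (Fin m)))) := by
      apply FreeGroup.ext_hom
      intro i
      rw [MonoidHom.comp_apply, FreeGroup.lift_apply_of, hX, hx]
      rfl
    rw [mk_sb]
    exact DFunLike.congr_fun h1 _
  have hy : FreeGroup.lift p (FreeGroup.mk yw) = gg b d 1 * b⁻¹ * (gg b d 1)⁻¹ := by
    rw [yw, FreeGroup.mk_toWord, map_mul, map_mul, map_inv, map_inv, map_gg,
      FreeGroup.lift_apply_of, FreeGroup.lift_apply_of]
    rfl
  have hnot : ¬ Pr M ((uu (S1 (rls R)) (Gw yw)).map dehn) := by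
    apply not_Pr
    intro q hq
    rw [yw, FreeGroup.mk_toWord, map_mul, map_mul, map_inv, map_inv,
      FreeGroup.lift_apply_of] at hq
    simpa using hq
  apply hnot
  rw [Pr_equiv h]
  apply Pr_of p
  · intro r hr
    rw [rls, List.mem_map] at hr
    obtain ⟨r', hr', rfl⟩ := hr
    rw [hsb, FreeGroup.mk_toWord, PresentedGroup.one_of_mem (Finset.mem_toList.1 hr'), map_one]
  · rw [mk_vw, map_mul, map_mul, map_mul, map_mul, map_inv, map_inv, hsb, hy,
      FreeGroup.lift_apply_of]
    change ι _ * b * (ι _)⁻¹ * b⁻¹ * (gg b d 1 * b⁻¹ * (gg b d 1)⁻¹) = 1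
    rw [hbw]
    group
  · intro hcomm
    have hcomm' : b * d = d * b := hcomm
    have hs : ss b d = b := by
      rw [ss, mul_assoc, hcomm', inv_mul_cancel_left]
    have hg : ∀ i, gg b d i = 1 := by
      intro i
      have h1 : (b ^ i)⁻¹ * b * b ^ i = b := by
        rw [mul_assoc, ← pow_succ', pow_succ, inv_mul_cancel_left]
      have h2 : d⁻¹ * b * d = b := hs
      rw [gg, bt, rr, hs, h1, h2, mul_inv_cancel]
    have hι : ι (PresentedGroup.mk (R : Set (FreeGroup (Fin m))) (FreeGroup.mk w)) = 1 := by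
      have h1 : ι.comp (PresentedGroup.mk (R : Set (FreeGroup (Fin m)))) = 1 := by
        apply FreeGroup.ext_hom
        intro i
        have h2 := hx i
        rw [hg] at h2
        exact h2.symm
      exact DFunLike.congr_fun h1 _
    rw [hι, hg] at hbw
    simp at hbw
    exact hb hbw.symm

end

/-- Equivalence up to Hurwitz moves and global conjugation with a certain fixed factorization is
undecidable. -/
theorem undecidable_fixed' : ∃ τ : List Entry, IsFactorization τ ∧ ∀ Γ : Subgroup OutPi,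
    ¬ ∃ f : List Entry → Bool, Computable f ∧ ∀ x : List Entry, IsFactorization x →
      (f x = true ↔ ConjEquiv Γ (τ.map dehn) (x.map dehn)) := by
  obtain ⟨m, R, W, hW, hn⟩ := Pool.Agent.Helper270.WP.word_problem
  refine ⟨uu (S1 (rls R)) (Gw yw), uu_isFactorization _ _, ?_⟩
  rintro Γ ⟨f, hf, hfx⟩
  apply hn
  have hc : Computable (fun n => f (uu (S1 (rls R)) (Gw (vw (sb (W n)) yw)))) :=
    hf.comp (red_computable _ hW)
  have hiff : ∀ n, f (uu (S1 (rls R)) (Gw (vw (sb (W n)) yw))) = true ↔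
      FreeGroup.mk (W n) ∈ Subgroup.normalClosure (R : Set (FreeGroup (Fin m))) := by
    intro n
    rw [hfx _ (uu_isFactorization _ _)]
    exact ⟨mem_of_equiv' R, fun h => ConjEquiv.of_hurwitz (equiv_of_mem' R h)⟩
  have hcp : ComputablePred (fun n => f (uu (S1 (rls R)) (Gw (vw (sb (W n)) yw))) = true) :=
    ⟨fun n => inferInstance, hc.of_eq fun n => by simp⟩
  exact hcp.of_eq hiff

end Pool.Agent.T6.H32.HC
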